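import Pool.Agent.TH561.AD.Gen
import Pool.Agent.TH561.AD.Comp

/-!
# Freely periodic knots with a generic number of full twists

`Pool.Agent.TH561.PK.Defs` contains the definitions:

* `Elem M`: an elementary tangle on `M` vertical strands: a crossing of one of the two kinds between
  the places `i` and `i + 1`, or a hook (the two lower points at the places `i`, `i + 1` are joined by a
  cap, the two upper points by a cup);
* `annular w dir`: the closure in the annulus of the tangle `w 0, w 1, …, w (L-1)` (one above the
  other); its marked points are the points `(t, j)` (level `t ∈ ℤ/L`, place `j`);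
* `Oriented w dir`: `dir` is an orientation of the curves of this diagram (`dir (t, j) = true`: upwards);
* `IsKnot D`: all marked points are on one curve.

`freeWord n w a` (in `Pool.Agent.TH561.FP.Defs`) is the word `w` repeated `n` times, followed by `a`
full twists on all `M` strands, that is by the word `(σ_0 σ_1 ⋯ σ_{M-2})^M` repeated `|a|` times, with
crossings of the kind given by the sign of `a`.  So `annular (freeWord n w a) dir` is a knot with a
symmetry of order `n` (a free one if `a` is prime to `n`, the quotient being a knot in the lens space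
`L(n, a)`), and `annular (freeWord 1 w b) dir'` is the closure of `w` followed by `b` full twists.

`red p f` is the Laurent polynomial `f` with coefficients modulo `p`.  `Dia`, `IsVassiliev`,
`Separated d X Y` (an integer valued Vassiliev invariant of oriented links of order at most `d` takes
different values on `X` and `Y`) and `unknot` are in `Pool.Agent.H832R3.VJ.Defs`, `Diagram`,
`Diagram.IsClosed` and `Diagram.fPoly` (the normalised Kauffman bracket) in
`Pool.Agent.H891R2.Jones.Diagram`.
-/

set_option autoImplicit false

namespace Pool.Agent.Results.MP_5f6b43_gt.GenericDescent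

open LaurentPolynomial Pool.Agent.H891R2.Jones Pool.Agent.TH561 Pool.Agent.TH561.PK
  Pool.Agent.TH561.FP Pool.Agent.TH561.AD
open Pool.Agent.H832R3.VJ (Separated unknot fPoly_unknot)

/-- Let `q = p ^ k` be a power of a prime `p > M + 1`, and let `a` be an integer such that `q` divides
none of the numbers `a i - 1`, `a i + 1`, `1 ≤ i ≤ M` (these are all integers outside of at most `2 M`
residue classes modulo `q`).  Let `D` be a knot diagram which is the closure in the annulus of `w ^ q`
followed by `a` full twists on all `M` strands, and for an integer `b` let `K_b` be the closure of `w`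
followed by `b` full twists.  Then `K_b` is a knot, and

* for every `m ≥ 1`, if `D` is not separated from the unknot by a Vassiliev invariant of order less
  than `q m`, then `f_{K_b} ≡ 1` modulo `(p, (A - 1) ^ m)` for all `b`;
* if `f_D ≡ 1` modulo `p`, then `f_{K_b} ≡ 1` modulo `p` for all `b`;
* if `l` is the number of the letters of `w`, `p > 2 ^ (M + 2 l) + 1` and `f_D = 1`, then
  `f_{K_b} = 1` for all `b`. -/
theorem result (M l : ℕ) (hl : 0 < l) (w : Fin l → Elem M) (p k : ℕ) (hp : p.Prime) (hMp : M + 1 < p)
    (hk : 1 ≤ k) (a : ℤ)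
    (ha : ∀ i : ℤ, 1 ≤ i → i ≤ M →
      ¬ ((p ^ k : ℕ) : ℤ) ∣ a * i - 1 ∧ ¬ ((p ^ k : ℕ) : ℤ) ∣ a * i + 1)
    (dir : Fin (p ^ k * l + a.natAbs * (M * (M - 1))) × Fin M → Bool)
    (ho : Oriented (freeWord (p ^ k) w a) dir) (hK : IsKnot (annular (freeWord (p ^ k) w a) dir)) :
    (annular (freeWord (p ^ k) w a) dir).IsClosed ∧
    ∀ (b : ℤ) (dir' : Fin (1 * l + b.natAbs * (M * (M - 1))) × Fin M → Bool),
      Oriented (freeWord 1 w b) dir' →
      IsKnot (annular (freeWord 1 w b) dir') ∧
      (∀ m : ℕ, 1 ≤ m →
        (T 1 - 1 : (ZMod p)[T;T⁻¹]) ^ m ∣ red p (annular (freeWord 1 w b) dir').fPoly - 1 ∨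
        Separated (p ^ k * m - 1) ⟨_, inferInstance, annular (freeWord (p ^ k) w a) dir⟩ unknot) ∧
      (red p (annular (freeWord (p ^ k) w a) dir).fPoly = 1 →
        red p (annular (freeWord 1 w b) dir').fPoly = 1) ∧
      (2 ^ (M + 2 * l) + 1 < p → (annular (freeWord (p ^ k) w a) dir).fPoly = 1 →
        (annular (freeWord 1 w b) dir').fPoly = 1) := by
  have hM : 1 < M := by
    have := (w ⟨0, hl⟩).2.2
    omega
  have : Fact p.Prime := ⟨hp⟩
  have hpos : 0 < p ^ k := Nat.pow_pos hp.pos
  refine ⟨annular_closed _ dir ho, fun b dir' ho' =>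
    ⟨quot_isKnot hl (p ^ k) hpos w a dir hK ho b dir' ho', fun m hm => ?_, fun hf => ?_, fun hb hf => ?_⟩⟩
  · by_cases hS : Separated (p ^ k * m - 1) ⟨_, inferInstance, annular (freeWord (p ^ k) w a) dir⟩ unknot
    · right; exact hS
    · left
      have h1 := red_T_sub_one p _ _ (dvd_of_not_separated _ _ _ hS)
      rw [fPoly_unknot, Nat.sub_add_cancel (Nat.mul_pos hpos hm), map_sub, map_one] at h1
      exact gen_order p k hk hMp hl hM w a ha dir ho hK m hm h1 b dir' ho'
  · exact gen_modp p k hk hMp hl hM w a ha dir ho hK hf b dir' ho'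
  · exact gen_exact p k hk hb hl hM w a ha dir ho hK hf b dir' ho'

end Pool.Agent.Results.MP_5f6b43_gt.GenericDescent
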